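import Pool.Agent.N545.LS.KS6

set_option autoImplicit false

/-! Part KS5 of project LS: the sixth power of `f`. -/

namespace Pool.Agent.N400.LS

open Finset Pool.Agent.N356.SP

variable {Γ R : Type*} [AddCommGroup Γ] [CommRing R] [Algebra ℝ R] {K : Cone Γ R}
  {L : R →ₗ[ℝ] ℝ} {C : Finset Γ} {θ : Γ → Γ → ℝ} {φ : Γ → R}

lemma prod6 (a b c d x y : Γ) : ((({a, b, c, d, x, y} : Multiset Γ)).map φ).prod =
    φ a * φ b * (φ c * φ d * (φ x * φ y)) := by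
  simp [mul_assoc]

lemma muA_cube : muA C φ ^ 3 = ∑ x ∈ C, ∑ y ∈ C, ∑ z ∈ C,
    φ x * φ (-x) * (φ y * φ (-y) * (φ z * φ (-z))) := by
  have h3 : muA C φ ^ 3 = muA C φ * muA C φ ^ 2 := by ring
  rw [h3, muA_sq]
  unfold muA
  rw [sum_mul]
  refine sum_congr rfl fun x _ => ?_
  rw [mul_sum]
  refine sum_congr rfl fun y _ => ?_
  rw [mul_sum]

lemma fA_six : fA C φ ^ 6 = ∑ a ∈ C, ∑ b ∈ C, ∑ c ∈ C, ∑ d ∈ C, ∑ x ∈ C, ∑ y ∈ C,
    φ a * φ b * (φ c * φ d * (φ x * φ y)) := by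
  have h2 : fA C φ ^ 2 = ∑ a ∈ C, ∑ b ∈ C, φ a * φ b := by
    unfold fA
    rw [sq, sum_mul_sum]
  have h6 : fA C φ ^ 6 = fA C φ ^ 2 * fA C φ ^ 4 := by ring
  rw [h6, h2, fA_four, sum_mul]
  refine sum_congr rfl fun a _ => ?_
  rw [sum_mul]
  refine sum_congr rfl fun b _ => ?_
  rw [mul_sum]
  refine sum_congr rfl fun c _ => ?_
  rw [mul_sum]
  refine sum_congr rfl fun d _ => ?_
  rw [mul_sum]
  refine sum_congr rfl fun x _ => ?_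
  rw [mul_sum]

open Classical in
lemma muA_wA : muA C φ * wA C θ φ = ∑ r ∈ C, ∑ s ∈ C, ∑ t ∈ C, ∑ u ∈ C, ∑ v ∈ C,
    if u + v = -(s + t) then (θ s t * θ u v) • (φ r * φ (-r) * (φ s * φ t * (φ u * φ v)))
      else 0 := by
  rw [wA_eq]
  unfold muA
  rw [sum_mul]
  refine sum_congr rfl fun r _ => ?_
  rw [mul_sum]
  refine sum_congr rfl fun s _ => ?_
  rw [mul_sum]
  refine sum_congr rfl fun t _ => ?_
  rw [mul_sum]
  refine sum_congr rfl fun u _ => ?_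
  rw [mul_sum]
  refine sum_congr rfl fun v _ => ?_
  split_ifs with h
  · rw [mul_smul_comm]
  · rw [mul_zero]

/-- KS5: sixth power of `f`, from the combinatorial inequality -/
theorem L_f6_of (hL : IsFun K L) (hφ : ∀ c, φ c ∈ K.P c)
    (hcomb : ∀ I : Multiset Γ → ℝ, (∀ U, 0 ≤ I U) → (∀ U : Multiset Γ, U.sum ≠ 0 → I U = 0) →
      5 / 2 * (∑ x ∈ C, ∑ y ∈ C, ∑ z ∈ C, I {x, -x, y, -y, z, -z}) +
        8 / 3 * (∑ r ∈ C, ∑ s ∈ C, ∑ t ∈ C, ∑ u ∈ C, ∑ v ∈ C,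
          θ s t * θ u v * I {r, -r, s, t, u, v}) ≤
      ∑ a ∈ C, ∑ b ∈ C, ∑ c ∈ C, ∑ d ∈ C, ∑ x ∈ C, ∑ y ∈ C, I {a, b, c, d, x, y}) :
    5 / 2 * L (muA C φ ^ 3) + 8 / 3 * L (muA C φ * wA C θ φ) ≤ L (fA C φ ^ 6) := by
  have hIz : ∀ U : Multiset Γ, U.sum ≠ 0 → L (U.map φ).prod = 0 := fun U hU =>
    hL.z _ hU _ (prod_mem6 hφ U)
  have hI0 : ∀ U : Multiset Γ, 0 ≤ L (U.map φ).prod := by
    intro U
    by_cases hU : U.sum = 0
    · have := prod_mem6 hφ U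
      rw [hU] at this
      exact hL.nn _ this
    · rw [hIz U hU]
  have h1 := hcomb (fun U => L (U.map φ).prod) hI0 hIz
  simp only [prod6] at h1
  have e1 : ∑ x ∈ C, ∑ y ∈ C, ∑ z ∈ C, L (φ x * φ (-x) * (φ y * φ (-y) * (φ z * φ (-z)))) =
      L (muA C φ ^ 3) := by
    rw [muA_cube]
    simp only [map_sum]
  have e2 : ∑ a ∈ C, ∑ b ∈ C, ∑ c ∈ C, ∑ d ∈ C, ∑ x ∈ C, ∑ y ∈ C,
      L (φ a * φ b * (φ c * φ d * (φ x * φ y))) = L (fA C φ ^ 6) := by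
    rw [fA_six]
    simp only [map_sum]
  have e3 : ∑ r ∈ C, ∑ s ∈ C, ∑ t ∈ C, ∑ u ∈ C, ∑ v ∈ C,
      θ s t * θ u v * L (φ r * φ (-r) * (φ s * φ t * (φ u * φ v))) =
      L (muA C φ * wA C θ φ) := by
    rw [muA_wA]
    simp only [map_sum]
    refine sum_congr rfl fun r _ => sum_congr rfl fun s _ => sum_congr rfl fun t _ =>
      sum_congr rfl fun u _ => sum_congr rfl fun v _ => ?_
    split_ifs with h
    · rw [map_smul, smul_eq_mul]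
    · rw [map_zero]
      have h2 : L (φ r * φ (-r) * (φ s * φ t * (φ u * φ v))) = 0 := by
        rw [← prod6]
        apply hIz
        intro h3
        apply h
        have h4 : s + t + (u + v) = 0 := by
          have : (({r, -r, s, t, u, v} : Multiset Γ)).sum = s + t + (u + v) := by
            simp [add_assoc]
          rwa [this] at h3
        exact eq_neg_of_add_eq_zero_right h4
      rw [h2, mul_zero]
  rw [e1, e2, e3] at h1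
  exact h1

/-- KS5: sixth power of `f`; the first argument is LS4 (`comb` of `Stm.lean`) -/
theorem L_f6 (comb : ∀ {C : Finset Γ} {θ : Γ → Γ → ℝ}, GoodC C θ →
      ∀ I : Multiset Γ → ℝ, (∀ U, 0 ≤ I U) → (∀ U : Multiset Γ, U.sum ≠ 0 → I U = 0) →
      5 / 2 * (∑ x ∈ C, ∑ y ∈ C, ∑ z ∈ C, I {x, -x, y, -y, z, -z}) +
        8 / 3 * (∑ r ∈ C, ∑ s ∈ C, ∑ t ∈ C, ∑ u ∈ C, ∑ v ∈ C,
          θ s t * θ u v * I {r, -r, s, t, u, v}) ≤
      ∑ a ∈ C, ∑ b ∈ C, ∑ c ∈ C, ∑ d ∈ C, ∑ x ∈ C, ∑ y ∈ C, I {a, b, c, d, x, y})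
    (hL : IsFun K L) (h : GoodC C θ) (hφ : ∀ c, φ c ∈ K.P c) :
    5 / 2 * L (muA C φ ^ 3) + 8 / 3 * L (muA C φ * wA C θ φ) ≤ L (fA C φ ^ 6) :=
  L_f6_of hL hφ (comb h)

end Pool.Agent.N400.LS
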